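import Pool.Agent.H41.HYP.S1
import Pool.Agent.H69.HYP.SPL

/-!
# HYP, DEC: decomposition of the form for `f = (x - c) γ`

The basis `γ`, `x^j - (c^j / γ(c)) γ` for `j < deg γ` of the polynomials of degree at most `deg γ`.
-/

set_option autoImplicit false

namespace Pool.HYP

open Polynomial Matrix

section Dec

variable {L : Type} [Field L]

theorem tau_lin_mul {m : ℕ} {c : L} {γ : L[X]} (hγ : γ.Monic) (hm : γ.natDegree = m) (p : L[X]) :
    tau ((X - C c) * γ) ((X - C c) * p) = if m = 0 then 0 else tau γ p := by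
  have hf : ((X - C c) * γ).Monic := (monic_X_sub_C c).mul hγ
  have hd : ((X - C c) * γ).natDegree = m + 1 := by
    rw [(monic_X_sub_C c).natDegree_mul hγ, natDegree_X_sub_C, hm]
    ring
  have h1 : tau ((X - C c) * γ) ((X - C c) * p) = tau ((X - C c) * γ) ((X - C c) * (p %ₘ γ)) := by
    refine tau_eq_of_dvd hf ?_
    have e1 := modByMonic_add_div p γ
    exact ⟨p /ₘ γ, by linear_combination -(X - C c) * e1⟩
  rw [h1]
  rcases Nat.eq_zero_or_pos m with h0 | h0
  · subst h0
    have : γ = 1 := hγ.natDegree_eq_zero.1 hm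
    subst this
    simp [tau]
  · rw [if_neg h0.ne']
    have h2 : (p %ₘ γ).natDegree < m := by
      rw [← hm]
      refine natDegree_modByMonic_lt p hγ ?_
      rintro rfl
      rw [natDegree_one] at hm
      omega
    have h3 : ((X - C c) * (p %ₘ γ)) %ₘ ((X - C c) * γ) = (X - C c) * (p %ₘ γ) := by
      rw [modByMonic_eq_self_iff hf]
      refine degree_lt_degree ?_
      rw [hd]
      refine lt_of_le_of_lt natDegree_mul_le ?_
      rw [natDegree_X_sub_C]
      omega
    unfold tau
    rw [h3, hd, hm, Nat.add_sub_cancel]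
    obtain ⟨k, rfl⟩ : ∃ k, m = k + 1 := ⟨m - 1, by omega⟩
    rw [Nat.add_sub_cancel, sub_mul, coeff_sub, coeff_X_mul, coeff_C_mul,
      coeff_eq_zero_of_natDegree_lt h2, mul_zero, sub_zero]

/-- The basis. -/
noncomputable def decE (m : ℕ) (c : L) (γ : L[X]) : Fin (m + 1) → L[X] :=
  Fin.cons γ fun j : Fin m => X ^ (j : ℕ) - C (c ^ (j : ℕ) / γ.eval c) * γ

theorem decE_deg {m : ℕ} {c : L} {γ : L[X]} (hm : γ.natDegree = m) (j : Fin (m + 1)) :
    (decE m c γ j).natDegree < m + 1 := by
  refine Fin.cases ?_ (fun j => ?_) j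
  · show γ.natDegree < m + 1
    omega
  · show (X ^ (j : ℕ) - C (c ^ (j : ℕ) / γ.eval c) * γ).natDegree < m + 1
    refine lt_of_le_of_lt (natDegree_sub_le _ _) (max_lt ?_ ?_)
    · rw [natDegree_X_pow]
      omega
    · refine lt_of_le_of_lt (natDegree_C_mul_le _ _) ?_
      omega

theorem decE_eval {m : ℕ} {c : L} {γ : L[X]} (hc : γ.eval c ≠ 0) (j : Fin m) :
    ∃ q, decE m c γ j.succ = (X - C c) * q := by
  have h1 : (decE m c γ j.succ).IsRoot c := by
    show (X ^ (j : ℕ) - C (c ^ (j : ℕ) / γ.eval c) * γ).IsRoot c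
    rw [IsRoot.def, eval_sub, eval_pow, eval_X, eval_mul, eval_C, div_mul_cancel₀ _ hc, sub_self]
  exact dvd_iff_isRoot.2 h1

theorem dec : DECStmt := by
  intro L _ m c γ h h1 hγ hm hc hh
  have hf : ((X - C c) * γ).Monic := (monic_X_sub_C c).mul hγ
  have hd : ((X - C c) * γ).natDegree = m + 1 := by
    rw [(monic_X_sub_C c).natDegree_mul hγ, natDegree_X_sub_C, hm]
    ring
  obtain ⟨a, ha⟩ : ∃ a : Matrix (Fin (m + 1)) (Fin (m + 1)) L,
    a = Matrix.of fun i j => vec (m + 1) ((X - C c) * γ) (decE m c γ j) i := ⟨_, rfl⟩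
  have hmod : ∀ j, decE m c γ j %ₘ ((X - C c) * γ) = decE m c γ j := fun j => by
    rw [modByMonic_eq_self_iff hf]
    exact degree_lt_degree (by rw [hd]; exact decE_deg hm j)
  have key : ∀ j k, (aᵀ * gr 0 (m + 1) ((X - C c) * γ) h * a) j k =
      tau ((X - C c) * γ) (h * (decE m c γ j * decE m c γ k)) := by
    intro j k
    rw [← tau_vec hf hd (Nat.succ_pos m), Matrix.mul_assoc, Matrix.mul_apply', ha]
    congr 1
  refine ⟨a, _, ?_, rfl, ?_, ?_, ?_⟩
  · -- the determinant
    intro h0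
    obtain ⟨v, hv, hav⟩ := Matrix.exists_mulVec_eq_zero_iff.2 h0
    refine hv ?_
    have e1 : ∑ j, C (v j) * decE m c γ j = 0 := by
      ext i
      rw [finsetSum_coeff, coeff_zero]
      by_cases hi : i < m + 1
      · have := congrFun hav ⟨i, hi⟩
        rw [ha] at this
        simp only [mulVec, dotProduct, of_apply, vec, hmod, Pi.zero_apply] at this
        rw [← this]
        refine Finset.sum_congr rfl fun j _ => ?_
        rw [coeff_C_mul, mul_comm]
      · refine Finset.sum_eq_zero fun j _ => ?_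
        rw [coeff_C_mul, coeff_eq_zero_of_natDegree_lt (lt_of_lt_of_le (decE_deg hm j)
          (not_lt.1 hi)), mul_zero]
    rw [Fin.sum_univ_succ] at e1
    have e2 : C (v 0 - ∑ j : Fin m, v j.succ * (c ^ (j : ℕ) / γ.eval c)) * γ +
        ∑ j : Fin m, C (v j.succ) * X ^ (j : ℕ) = 0 := by
      rw [← e1]
      show _ = C (v 0) * γ + ∑ j : Fin m, C (v j.succ) *
        (X ^ (j : ℕ) - C (c ^ (j : ℕ) / γ.eval c) * γ)
      simp only [mul_sub, Finset.sum_sub_distrib, C_sub, map_sum, sub_mul, Finset.sum_mul, C_mul,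
        mul_assoc]
      ring
    have e3 : v 0 - ∑ j : Fin m, v j.succ * (c ^ (j : ℕ) / γ.eval c) = 0 := by
      have := congrArg (fun p => coeff p m) e2
      simp only [coeff_add, coeff_C_mul, finsetSum_coeff, coeff_zero, coeff_X_pow] at this
      have h4 : γ.coeff m = 1 := by
        rw [← hm]
        exact hγ.coeff_natDegree
      have h5 : (∑ x : Fin m, v x.succ * if m = (x : ℕ) then (1 : L) else 0) = 0 :=
        Finset.sum_eq_zero fun j _ => by rw [if_neg (by omega), mul_zero]
      rw [h4, mul_one, h5, add_zero] at this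
      exact this
    rw [e3, C_0, zero_mul, zero_add] at e2
    have e4 : ∀ j : Fin m, v j.succ = 0 := by
      intro j
      have := congrArg (fun p => coeff p (j : ℕ)) e2
      simp only [coeff_C_mul, finsetSum_coeff, coeff_zero, coeff_X_pow] at this
      rw [Finset.sum_eq_single j, if_pos rfl, mul_one] at this
      · exact this
      · intro k _ hk
        rw [if_neg (fun e => hk (Fin.ext e.symm)), mul_zero]
      · intro hj
        exact absurd (Finset.mem_univ _) hj
    ext j
    refine Fin.cases ?_ (fun j => ?_) j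
    · have e5 : ∑ j : Fin m, v j.succ * (c ^ (j : ℕ) / γ.eval c) = 0 :=
        Finset.sum_eq_zero fun j _ => by rw [e4, zero_mul]
      rw [e5, sub_zero] at e3
      exact e3
    · exact e4 j
  · rw [key]
    show tau _ (h * (γ * γ)) = _
    have e1 : tau ((X - C c) * γ) (h * (γ * γ)) =
        tau ((X - C c) * γ) (C (h.eval c * γ.eval c) * γ) := by
      refine tau_eq_of_dvd hf ?_
      have : (X - C c) ∣ h * γ - C (h.eval c * γ.eval c) := by
        rw [dvd_iff_isRoot, IsRoot.def, eval_sub, eval_mul, eval_C, sub_self]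
      obtain ⟨q, hq⟩ := this
      exact ⟨q, by linear_combination γ * hq⟩
    rw [e1]
    unfold tau
    have e2 : (C (h.eval c * γ.eval c) * γ) %ₘ ((X - C c) * γ) = C (h.eval c * γ.eval c) * γ := by
      rw [modByMonic_eq_self_iff hf]
      refine degree_lt_degree ?_
      rw [hd]
      refine lt_of_le_of_lt (natDegree_C_mul_le _ _) ?_
      omega
    rw [e2, hd, Nat.add_sub_cancel, coeff_C_mul, ← hm, hγ.coeff_natDegree, mul_one]
  · intro j
    obtain ⟨q, hq⟩ := decE_eval (m := m) hc j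
    have e0 : tau ((X - C c) * γ) (h * (decE m c γ 0 * decE m c γ j.succ)) = 0 := by
      rw [hq]
      show tau _ (h * (γ * ((X - C c) * q))) = 0
      have : tau ((X - C c) * γ) (h * (γ * ((X - C c) * q))) = tau ((X - C c) * γ) 0 := by
        refine tau_eq_of_dvd hf ?_
        exact ⟨h * q, by ring⟩
      rw [this]
      simp [tau]
    refine ⟨by rw [key, e0], ?_⟩
    rw [key, mul_comm (decE m c γ j.succ), e0]
  · intro i j
    rw [key]
    obtain ⟨q, hq⟩ := decE_eval (m := m) hc i
    have hi : γ ∣ decE m c γ i.succ - X ^ (i : ℕ) := by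
      show γ ∣ (X ^ (i : ℕ) - C (c ^ (i : ℕ) / γ.eval c) * γ) - X ^ (i : ℕ)
      exact ⟨-C (c ^ (i : ℕ) / γ.eval c), by ring⟩
    have hj : γ ∣ decE m c γ j.succ - X ^ (j : ℕ) := by
      show γ ∣ (X ^ (j : ℕ) - C (c ^ (j : ℕ) / γ.eval c) * γ) - X ^ (j : ℕ)
      exact ⟨-C (c ^ (j : ℕ) / γ.eval c), by ring⟩
    have hm0 : m ≠ 0 := by
      have := i.pos
      omega
    have e1 : h * (decE m c γ i.succ * decE m c γ j.succ) =
        (X - C c) * (h * q * decE m c γ j.succ) := by
      rw [hq]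
      ring
    rw [e1, tau_lin_mul hγ hm, if_neg hm0]
    show _ = tau γ (X ^ ((i : ℕ) + (j : ℕ) + 0) * h1)
    refine tau_eq_of_dvd hγ ?_
    obtain ⟨r, hr⟩ := hh
    obtain ⟨s, hs⟩ := hi
    obtain ⟨t, ht⟩ := hj
    rw [hq] at hs
    refine ⟨r * q * decE m c γ j.succ + h1 * s * decE m c γ j.succ + h1 * X ^ (i : ℕ) * t, ?_⟩
    rw [add_zero, pow_add]
    linear_combination (q * decE m c γ j.succ) * hr + (h1 * decE m c γ j.succ) * hs +
      (h1 * X ^ (i : ℕ)) * ht

end Dec

end Pool.HYP
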