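import Pool.Agent.H41.HYP.S2
import Pool.Agent.H69.HYP.SPL

/-!
# HYP, TW2: local classes of a ramified twist
-/

set_option autoImplicit false

namespace Pool.HYP.H76

open Polynomial Matrix Pool.AVS Pool.HYP

section Basic

variable {L : Type} [Field L]

theorem natDegree_compd {d : L} (hd : d ≠ 0) (u : L[X]) :
    (u.comp (C d * X)).natDegree = u.natDegree := by
  rw [natDegree_comp, natDegree_C_mul_X d hd, mul_one]

theorem kap_comp {d : L} (hd : d ≠ 0) (u : L[X]) :
    Pool.HYP.kap (u.comp (C d * X)) = (Pool.HYP.kap u).comp (C d * X) := by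
  unfold Pool.HYP.kap
  rw [natDegree_compd hd, mul_comp]
  congr 1
  have : ((-1 : L[X]) ^ u.natDegree).comp (C d * X) = (-1) ^ u.natDegree := by
    rw [pow_comp, neg_comp, one_comp]
  exact this.symm

theorem scale_comp (f : L[X]) (d : L) :
    (f.scaleRoots d).comp (C d * X) = C (d ^ f.natDegree) * f := by
  have := scaleRoots_eval₂_mul (p := f) (C : L →+* L[X]) X d
  rw [Polynomial.comp, this, eval₂_C_X, C_pow]

theorem unit_coprime {R : Type} [CommRing R] {a b : R} (h : IsUnit a) : IsCoprime a b := by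
  obtain ⟨u, rfl⟩ := h
  exact ⟨↑u⁻¹, 0, by simp⟩

theorem coprime_comp {d : L} {u f : L[X]} (h : IsCoprime u (f.scaleRoots d)) :
    IsCoprime (u.comp (C d * X)) f := by
  obtain ⟨a, b, hab⟩ := h
  have := congrArg (fun p => p.comp (C d * X)) hab
  simp only [add_comp, mul_comp, one_comp, scale_comp] at this
  exact ⟨a.comp (C d * X), b.comp (C d * X) * C (d ^ f.natDegree), by
    linear_combination this⟩

theorem coprime_kap {u f : L[X]} (h : IsCoprime u f) : IsCoprime (Pool.HYP.kap u) f := by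
  unfold Pool.HYP.kap
  exact IsCoprime.mul_left (unit_coprime (isUnit_one.neg.pow _)) h

theorem coprime_of_dvd {f a h s : L[X]} (ha : IsCoprime a f) (hd : f ∣ a - h * s ^ 2) :
    IsCoprime s f := by
  obtain ⟨q, hq⟩ := hd
  obtain ⟨x, y, hxy⟩ := ha
  exact ⟨x * (h * s), y + x * q, by linear_combination hxy - x * hq⟩

theorem eval_ne {f s : L[X]} {c : L} (hf : f.eval c = 0) (h : IsCoprime s f) : s.eval c ≠ 0 := by
  intro h0
  obtain ⟨a, b, hab⟩ := h
  have := congrArg (eval c) hab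
  rw [eval_add, eval_mul, eval_mul, hf, h0] at this
  simp at this

theorem gr_C_mul (n : ℕ) (f h : L[X]) (ε : L) : gr 0 n f (C ε * h) = ε • gr 0 n f h := by
  ext i j
  show tauP f (X ^ ((i : ℕ) + (j : ℕ) + 0) * (C ε * h)) = ε • tauP f (X ^ ((i : ℕ) + (j : ℕ) + 0) * h)
  rw [← map_smul]
  congr 1
  rw [smul_eq_C_mul]
  ring

theorem split_twist (h2 : (2 : L) ≠ 0) (hSC : SCALStmt) (hSP : SPCStmt) {g : ℕ} {f : L[X]}
    (hf : f.Monic) (hn : f.natDegree = 2 * g + 1) {d : L} (hd : d ≠ 0) {v w : L[X]}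
    (hv : v.Monic) (hc : IsCoprime v (f.scaleRoots d)) (hw : v ∣ w ^ 2 - f.scaleRoots d) :
    SplM g (gr 0 (2 * g + 1) f (Pool.HYP.kap (v.comp (C d * X)))) := by
  have h1 := spl L h2 g (f.scaleRoots d) v w ((monic_scaleRoots_iff d).2 hf)
    (by rw [natDegree_scaleRoots, hn]) hv.ne_zero hc hw
  have h3 := (hSC L g (2 * g + 1) f v d hd hf hn).2 h1
  unfold Pool.HYP.kap
  have h4 : ((-1 : L[X]) ^ (v.comp (C d * X)).natDegree) =
      C ((-1 : L) ^ (v.comp (C d * X)).natDegree) := by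
    rw [C_pow, C_neg, C_1]
  rw [h4, gr_C_mul]
  exact ((hSP L g (2 * g + 1) _ 1 _ (by rw [det_one]; exact one_ne_zero)
    (pow_ne_zero _ (neg_ne_zero.2 one_ne_zero))).2).2 h3

end Basic

section Local

variable {L : Type} [Field L] {O : ValuationSubring L}

theorem eval_unit {g : ℕ} (hg : 1 ≤ g) {γ : O[X]} (h : OkL O g γ) (c : O) :
    IsCoprime (X - C (IsLocalRing.residue O c)) (rd O γ) := by
  obtain ⟨h1, h2, h3⟩ := h
  refine ((h3.coprime_iff_not_dvd).2 fun hd => ?_).symm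
  have h4 := natDegree_le_of_dvd hd (X_sub_C_ne_zero _)
  rw [natDegree_X_sub_C, h1.natDegree_map, h2] at h4
  omega

theorem eval_ne_zero {g : ℕ} (hg : 1 ≤ g) {γ : O[X]} (h : OkL O g γ) (c : O) :
    (oL O γ).eval (c : L) ≠ 0 := by
  intro h0
  have h1 : (oL O γ).eval (c : L) = ((γ.eval c : O) : L) := by
    show (γ.map (algebraMap O L)).eval (algebraMap O L c) = algebraMap O L (γ.eval c)
    rw [eval_map_algebraMap, aeval_algebraMap_apply_eq_algebraMap_eval]
  rw [h1] at h0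
  have h2 : γ.eval c = 0 := by exact_mod_cast h0
  have h3 : (rd O γ).eval (IsLocalRing.residue O c) = 0 := by
    rw [eval_map, eval₂_hom, h2, map_zero]
  exact eval_ne (c := IsLocalRing.residue O c) h3 (eval_unit hg h c) (by simp)

theorem not_dvd {g : ℕ} (hg : 1 ≤ g) {γ : O[X]} (h : OkL O g γ) {s : L[X]}
    (hs : IsCoprime s (oL O γ)) : ¬ oL O γ ∣ s := by
  intro hd
  have h1 : IsUnit (oL O γ) := hs.symm.isUnit_of_dvd' dvd_rfl hd
  have h2 := natDegree_eq_zero_of_isUnit h1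
  rw [h.1.natDegree_map, h.2.1] at h2
  omega

end Local

theorem tw2 (hSC : SCALStmt) (hSQ : SQIStmt) (hSP : SPCStmt) (hMU : MULRStmt) (hQS : QSPStmt)
    (hNM : NMUStmt) (hUN : UNRStmt) : TW2Stmt := by
  intro L _ O π hO g c γ hg hγ d hdπ u w s h x hu huc huw hus hhc hNh hTy
  have h2 : (2 : L) ≠ 0 := hO.two.1
  have hπ := hO.pi_ne
  have hd : d ≠ 0 := by
    rintro rfl
    exact hdπ.1 (zero_div _)
  obtain ⟨hγm, hγd, hγi⟩ := hγ
  have hγ : OkL O g γ := ⟨hγm, hγd, hγi⟩
  have hfO : oL O ((X - C c) * γ) = (X - C (c : L)) * oL O γ := by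
    show ((X - C c) * γ).map (algebraMap O L) = _
    rw [Polynomial.map_mul, Polynomial.map_sub, map_X, map_C]
    rfl
  rw [hfO] at huc huw hus hhc hNh
  have hgm : (oL O γ).Monic := hγm.map _
  have hgd : (oL O γ).natDegree = 2 * g := by rw [hγm.natDegree_map, hγd]
  have hfm : ((X - C (c : L)) * oL O γ).Monic := (monic_X_sub_C _).mul hgm
  have hfd : ((X - C (c : L)) * oL O γ).natDegree = 2 * g + 1 := by
    rw [(monic_X_sub_C _).natDegree_mul hgm, natDegree_X_sub_C, hgd]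
    ring
  have hf0 : ((X - C (c : L)) * oL O γ).eval (c : L) = 0 := by simp
  have hγc : (oL O γ).eval (c : L) ≠ 0 := eval_ne_zero hg hγ c
  have hsc : ((X - C (c : L)) * oL O γ).scaleRoots d =
      (X - C ((c : L) * d)) * (oL O γ).scaleRoots d := by
    rw [mul_scaleRoots_of_noZeroDivisors, X_sub_C_scaleRoots]
  have huk : IsCoprime (Pool.HYP.kap (u.comp (C d * X))) ((X - C (c : L)) * oL O γ) :=
    coprime_kap (coprime_comp huc)
  have hsf : IsCoprime s ((X - C (c : L)) * oL O γ) := coprime_of_dvd huk hus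
  have hspl : SplM g (gr 0 (2 * g + 1) ((X - C (c : L)) * oL O γ) h) := by
    have h3 := split_twist h2 hSC hSP hfm hfd hd hu huc huw
    obtain ⟨a, ha, ha0, -⟩ := hSQ L (2 * g + 1) _ h _ s hfm hfd hsf hus
    rw [ha0] at h3
    exact ((hSP L g (2 * g + 1) _ a 1 ha one_ne_zero).1).1 h3
  have hq := hQS L O π hO g c γ hg hγ h x (by rw [hfO]; exact hhc) (by rw [hfO]; exact hNh) hTy
  rw [hfO] at hq
  have hx := hq.1 hspl
  by_contra hx2
  have hz : ∀ y : ZMod 2, y ≠ 0 → y = 1 := by decide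
  have hx2' : x.2 = 1 := hz _ hx2
  have hx1 : x.1 = 0 := by
    by_contra hx1
    exact hx (Prod.ext (hz _ hx1) hx2')
  obtain ⟨n, p, hp, hph, hn, hsq⟩ := hTy
  rw [hx1] at hn hsq
  have hsq' : ¬ IsSquare (h.eval (c : L)) := by
    intro hs
    refine hx2 (hsq.2 ?_)
    rw [ZMod.val_zero, pow_zero, mul_one]
    exact hs
  -- the second divisor
  have hGE : ((oL O γ).scaleRoots d).eval ((c : L) * d) = d ^ (2 * g) * (oL O γ).eval (c : L) := by
    rw [mul_comm (c : L) d, scaleRoots_eval_mul, hgd]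
  obtain ⟨v, w1, s1, hv, hvc, hvw, hs1, hvu, hvE⟩ := hMU L ((oL O γ).scaleRoots d) u w
    ((c : L) * d) ((monic_scaleRoots_iff d).2 hgm)
    (by rw [hGE]; exact mul_ne_zero (pow_ne_zero _ hd) hγc) hu (by rw [← hsc]; exact huc)
    (by rw [← hsc]; exact huw)
  rw [← hsc] at hvc hvw
  have hvspl := split_twist h2 hSC hSP hfm hfd hd hv hvc hvw
  have hvf : IsCoprime (Pool.HYP.kap (v.comp (C d * X))) ((X - C (c : L)) * oL O γ) :=
    coprime_kap (coprime_comp hvc)
  obtain ⟨h', hh'⟩ : ∃ h', h' = Pool.HYP.kap (v.comp (C d * X)) := ⟨_, rfl⟩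
  obtain ⟨t, ht⟩ : ∃ t, t = s1.comp (C d * X) := ⟨_, rfl⟩
  rw [← hh'] at hvspl hvf
  have htc : IsCoprime t (oL O γ) := by
    rw [ht]
    exact coprime_comp hs1
  -- the relation modulo γ
  have hrel : oL O γ ∣ h' - h * s ^ 2 * (C d * (C (c : L) - X)) * t ^ 2 := by
    obtain ⟨q, hq⟩ := hvu
    have e1 := congrArg (fun p => p.comp (C d * X)) hq
    simp only [sub_comp, mul_comp, pow_comp, C_comp, X_comp, scale_comp] at e1
    rw [← kap_comp hd, ← kap_comp hd, ← hh', ← ht] at e1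
    obtain ⟨r, hr⟩ := hus
    refine ⟨C (d ^ (oL O γ).natDegree) * q.comp (C d * X) +
      (X - C (c : L)) * r * (C d * (C (c : L) - X)) * t ^ 2, ?_⟩
    have e2 : (C ((c : L) * d) : L[X]) = C d * C (c : L) := by rw [← C_mul, mul_comm]
    rw [e2] at e1
    linear_combination e1 + (C d * (C (c : L) - X)) * t ^ 2 * hr
  -- evaluation
  have hEc : h'.eval (c : L) = (Pool.HYP.kap v).eval ((c : L) * d) := by
    rw [hh', kap_comp hd, eval_comp, eval_mul, eval_C, eval_X, mul_comm]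
  have huE : (Pool.HYP.kap u).eval ((c : L) * d) = h.eval (c : L) * s.eval (c : L) ^ 2 := by
    obtain ⟨q, hq⟩ := hus
    have := congrArg (eval (c : L)) hq
    have e1 : eval (c : L) ((X - C (c : L)) * oL O γ * q) = 0 := by rw [eval_mul, hf0, zero_mul]
    rw [e1, kap_comp hd, eval_sub, eval_comp, eval_mul, eval_C, eval_X, eval_mul, eval_pow,
      mul_comm d] at this
    exact sub_eq_zero.1 this
  have hs0 : s.eval (c : L) ≠ 0 := eval_ne hf0 hsf
  have hh0 : h.eval (c : L) ≠ 0 := eval_ne hf0 hhc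
  have hv0 : h'.eval (c : L) ≠ 0 := eval_ne hf0 hvf
  obtain ⟨A, hA⟩ := hvE
  rw [← hEc, huE, hGE] at hA
  -- the norm
  have hNh' : NSq ((X - C (c : L)) * oL O γ) h' := by
    have hN : ∀ p : L[X], Algebra.norm L (AdjoinRoot.mk ((X - C (c : L)) * oL O γ) p) =
        p.eval (c : L) * Algebra.norm L (AdjoinRoot.mk (oL O γ) p) := by
      intro p
      rw [hNM.1 L _ _ p (monic_X_sub_C _) hgm, hNM.2.1]
    have hNC : Algebra.norm L (AdjoinRoot.mk (oL O γ) (C d)) = d ^ (2 * g) := by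
      show Algebra.norm L (algebraMap L (AdjoinRoot (oL O γ)) d) = _
      rw [Algebra.norm_algebraMap_of_basis (AdjoinRoot.powerBasis' hgm).basis, Fintype.card_fin,
        AdjoinRoot.powerBasis'_dim, hgd]
    have hNg : Algebra.norm L (AdjoinRoot.mk (oL O γ) h') =
        Algebra.norm L (AdjoinRoot.mk (oL O γ) h) *
          Algebra.norm L (AdjoinRoot.mk (oL O γ) s) ^ 2 * (d ^ (2 * g) * (oL O γ).eval (c : L)) *
          Algebra.norm L (AdjoinRoot.mk (oL O γ) t) ^ 2 := by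
      have e1 : AdjoinRoot.mk (oL O γ) h' = AdjoinRoot.mk (oL O γ)
          (h * s ^ 2 * (C d * (C (c : L) - X)) * t ^ 2) := AdjoinRoot.mk_eq_mk.2 hrel
      rw [e1]
      simp only [map_mul, map_pow]
      rw [hNC, hNM.2.2.1 L (c : L) _ hgm]
    obtain ⟨B, hB⟩ := hNh
    rw [hN] at hB
    show IsSquare _
    rw [hN, hNg]
    refine ⟨A * B * Algebra.norm L (AdjoinRoot.mk (oL O γ) s) *
      Algebra.norm L (AdjoinRoot.mk (oL O γ) t) / (h.eval (c : L) * s.eval (c : L)), ?_⟩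
    field_simp
    linear_combination (Algebra.norm L (AdjoinRoot.mk (oL O γ) s) ^ 2 *
      Algebra.norm L (AdjoinRoot.mk (oL O γ) t) ^ 2) * (B * B) * hA +
      (Algebra.norm L (AdjoinRoot.mk (oL O γ) s) ^ 2 *
      Algebra.norm L (AdjoinRoot.mk (oL O γ) t) ^ 2) *
      (h'.eval (c : L) * (h.eval (c : L) * s.eval (c : L) ^ 2) *
      (d ^ (2 * g) * (oL O γ).eval (c : L))) * hB
  -- the type
  have hTy' : TyL O π c γ (1, 1) h' := by
    obtain ⟨m, q, hq, hqs⟩ := (hUN L O π hO γ hγm hγi).1 s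
      (not_dvd hg hγ (hsf.of_mul_right_right))
    obtain ⟨m', q', hq', hqt⟩ := (hUN L O π hO γ hγm hγi).1 t (not_dvd hg hγ htc)
    obtain ⟨ε, hε⟩ : ∃ ε : O, (ε : L) = d / π := ⟨⟨d / π, hdπ.2.1⟩, rfl⟩
    have hε1 : IsUnit ε := by
      refine isUnit_iff_exists_inv.2 ⟨⟨(d / π)⁻¹, hdπ.2.2⟩, ?_⟩
      apply Subtype.ext
      show (ε : L) * (d / π)⁻¹ = 1
      rw [hε, mul_inv_cancel₀ hdπ.1]
    refine ⟨n + 1 + 2 * m + 2 * m', p * C ε * (C c - X) * q ^ 2 * q' ^ 2, ?_, ?_, ?_, ?_⟩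
    · have e1 : rd O (p * C ε * (C c - X) * q ^ 2 * q' ^ 2) =
          rd O p * C (IsLocalRing.residue O ε) * (-(X - C (IsLocalRing.residue O c))) *
            rd O q ^ 2 * rd O q' ^ 2 := by
        show Polynomial.map _ _ = _
        simp only [Polynomial.map_mul, Polynomial.map_pow, Polynomial.map_sub, map_C, map_X,
          neg_sub]
      rw [e1]
      refine IsCoprime.mul_left (IsCoprime.mul_left (IsCoprime.mul_left (IsCoprime.mul_left hp ?_)
        ?_) hq.pow_left) hq'.pow_left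
      · exact unit_coprime ((hε1.map (IsLocalRing.residue O)).map (C : _ →+* _))
      · exact (eval_unit hg hγ c).neg_left
    · have hdε : d = π * (ε : L) := by
        rw [hε]
        field_simp
      have e1 : oL O (p * C ε * (C c - X) * q ^ 2 * q' ^ 2) =
          oL O p * C (ε : L) * (C (c : L) - X) * oL O q ^ 2 * oL O q' ^ 2 := by
        show Polynomial.map _ _ = _
        simp only [Polynomial.map_mul, Polynomial.map_pow, Polynomial.map_sub, map_C, map_X]
        rfl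
      have e2 : π ^ (n + 1 + 2 * m + 2 * m') = π ^ n * π * (π ^ m) ^ 2 * (π ^ m') ^ 2 := by
        rw [zpow_add₀ hπ, zpow_add₀ hπ, zpow_add₀ hπ, zpow_one, _root_.zpow_mul, _root_.zpow_mul]
        have : ∀ k : ℤ, ((π ^ (2 : ℤ)) ^ k : L) = (π ^ k) ^ 2 := by
          intro k
          rw [← _root_.zpow_mul, mul_comm, _root_.zpow_mul]
          norm_cast
        rw [this, this]
      rw [e1, e2]
      obtain ⟨a1, ha1⟩ := hrel
      obtain ⟨a2, ha2⟩ := hph
      obtain ⟨a3, ha3⟩ := hqs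
      obtain ⟨a4, ha4⟩ := hqt
      have e3 : (C d : L[X]) = C π * C (ε : L) := by rw [← C_mul, ← hdε]
      simp only [C_mul, C_pow]
      refine ⟨a1 + a2 * s ^ 2 * (C π * C (ε : L) * (C (c : L) - X)) * t ^ 2 +
        C (π ^ n) * oL O p * (C π * C (ε : L) * (C (c : L) - X)) *
          (a3 * (s + C (π ^ m) * oL O q) * t ^ 2 +
            (C (π ^ m) * oL O q) ^ 2 * a4 * (t + C (π ^ m') * oL O q')), ?_⟩
      rw [e3] at ha1
      linear_combination ha1 + s ^ 2 * (C π * C (ε : L) * (C (c : L) - X)) * t ^ 2 * ha2 +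
        C (π ^ n) * oL O p * (C π * C (ε : L) * (C (c : L) - X)) *
          (s + C (π ^ m) * oL O q) * t ^ 2 * ha3 +
        C (π ^ n) * oL O p * (C π * C (ε : L) * (C (c : L) - X)) *
          (C (π ^ m) * oL O q) ^ 2 * (t + C (π ^ m') * oL O q') * ha4
    · have e2 : (2 : ZMod 2) = 0 := by decide
      push_cast
      rw [hn, e2]
      ring
    · refine ⟨fun h => absurd h (by decide), fun hs => absurd ?_ hsq'⟩
      obtain ⟨b, hb⟩ := hs
      have e1 : ((1 : ZMod 2)).val = 1 := by decide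
      have e2 : h'.eval (c : L) * (oL O γ).eval (c : L) = b * b := by
        rw [← hb]
        show _ = h'.eval (c : L) * (oL O γ).eval (c : L) ^ (1 : ZMod 2).val
        rw [e1, pow_one]
      have hb0 : b ≠ 0 := by
        rintro rfl
        rw [mul_zero] at e2
        exact mul_ne_zero hv0 hγc e2
      have hdg : d ^ g ≠ 0 := pow_ne_zero _ hd
      refine ⟨A / (b * s.eval (c : L) * d ^ g), ?_⟩
      have e3 : d ^ (2 * g) = d ^ g * d ^ g := by rw [two_mul, pow_add]
      rw [e3] at hA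
      field_simp
      linear_combination hA - (h.eval (c : L) * s.eval (c : L) ^ 2 * (d ^ g * d ^ g)) * e2
  have hq' := hQS L O π hO g c γ hg hγ h' (1, 1) (by rw [hfO]; exact hvf)
    (by rw [hfO]; exact hNh') hTy'
  rw [hfO] at hq'
  exact hq'.1 hvspl rfl

end Pool.HYP.H76
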